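import Pool.Agent.H626R2.Loc.GDefs

/-!
# Interpolated powers (task S5 of helper626)
-/

set_option autoImplicit false

namespace Pool.Agent.H626R2.Loc

open MvPolynomial

section gen

variable {K : Type} [Field K]

/-- S5a. -/
theorem psiN_eq {N v u : ℕ} (hv : 1 ≤ v) (h : u ≤ N) : psiN N v u = v ^ u := by
  obtain ⟨w, rfl⟩ : ∃ w, v = w + 1 := ⟨v - 1, by omega⟩
  rw [add_pow]
  unfold psiN
  simp only [Nat.add_sub_cancel, one_pow, mul_one]
  refine (Finset.sum_subset (Finset.range_mono (by omega)) ?_).symm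
  intro i _ hi
  rw [Finset.mem_range, not_lt] at hi
  rw [Nat.choose_eq_zero_of_lt (by omega), mul_zero]

/-- S5b. -/
theorem psi_eval [CharZero K] (N v u : ℕ) : (psi K N v).eval (u : K) = (psiN N v u : K) := by
  unfold psi psiN
  rw [Polynomial.eval_finsetSum, Nat.cast_sum]
  refine Finset.sum_congr rfl fun i _ => ?_
  rw [Polynomial.eval_mul, Polynomial.eval_C, descPochhammer_eval_eq_descFactorial,
    Nat.descFactorial_eq_factorial_mul_choose, Nat.cast_mul, Nat.cast_mul, Nat.cast_pow]
  have h : (i.factorial : K) ≠ 0 := Nat.cast_ne_zero.mpr (Nat.factorial_ne_zero i)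
  rw [div_mul_eq_mul_div, div_eq_iff h]
  ring

/-- S5c. -/
theorem psi_natDegree (N v : ℕ) : (psi K N v).natDegree ≤ N := by
  unfold psi
  refine Polynomial.natDegree_sum_le_of_forall_le _ _ fun i hi => ?_
  refine (Polynomial.natDegree_C_mul_le _ _).trans ?_
  rw [descPochhammer_natDegree]
  have := Finset.mem_range.mp hi
  omega

/-- S5d. -/
theorem psi_comp_ne_zero [CharZero K] {N v : ℕ} (hN : 1 ≤ N) (hv : 2 ≤ v) (w : Polynomial K)
    (hw : w ≠ 0) : Polynomial.aeval (psi K N v) w ≠ 0 := by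
  intro h
  have h' : w.comp (psi K N v) = 0 := h
  rw [Polynomial.comp_eq_zero_iff] at h'
  rcases h' with h' | ⟨_, h'⟩
  · exact hw h'
  · have h0 := psi_eval (K := K) N v 0
    have h1 := psi_eval (K := K) N v 1
    rw [h', Polynomial.eval_C, psiN_eq (by omega) (Nat.zero_le N), pow_zero] at h0
    rw [h', Polynomial.eval_C, psiN_eq (by omega) hN, pow_one, h0] at h1
    have : (1 : ℕ) = v := by exact_mod_cast h1
    omega

end gen

end Pool.Agent.H626R2.Loc
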