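import Mathlib

/-! Differential graded rings and modules, perfect modules and the Grothendieck group `K_0`. -/

set_option autoImplicit false

namespace Pool.Agent.H881R2

/-- A differential graded ring (homological grading: the differential lowers the degree by one). -/
structure DGRing where
  /-- the underlying ring -/
  A : Type
  [ring : Ring A]
  /-- the homogeneous parts -/
  gr : ℤ → AddSubgroup A
  internal : DirectSum.IsInternal gr
  one_mem : (1 : A) ∈ gr 0
  mul_mem : ∀ (i j : ℤ) (x y : A), x ∈ gr i → y ∈ gr j → x * y ∈ gr (i + j)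
  /-- the differential -/
  d : A →+ A
  d_mem : ∀ (i : ℤ) (x : A), x ∈ gr (i + 1) → d x ∈ gr i
  d_d : ∀ x : A, d (d x) = 0
  leibniz : ∀ (i : ℤ) (x y : A), x ∈ gr i →
    d (x * y) = d x * y + (i.negOnePow : ℤ) • (x * d y)

attribute [instance] DGRing.ring

/-- A left differential graded module over a differential graded ring. -/
structure DGMod (R : DGRing) where
  /-- the underlying module -/
  M : Type
  [acg : AddCommGroup M]
  [mod : Module R.A M]
  /-- the homogeneous parts -/
  gr : ℤ → AddSubgroup M
  internal : DirectSum.IsInternal gr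
  smul_mem : ∀ (i j : ℤ) (a : R.A) (m : M), a ∈ R.gr i → m ∈ gr j → a • m ∈ gr (i + j)
  /-- the differential -/
  d : M →+ M
  d_mem : ∀ (i : ℤ) (m : M), m ∈ gr (i + 1) → d m ∈ gr i
  d_d : ∀ m : M, d (d m) = 0
  leibniz : ∀ (i : ℤ) (a : R.A) (m : M), a ∈ R.gr i →
    d (a • m) = R.d a • m + (i.negOnePow : ℤ) • (a • d m)

attribute [instance] DGMod.acg DGMod.mod

namespace DGMod

variable {R : DGRing}

/-- A morphism of dg modules: linear, of degree zero, commuting with the differentials. -/
structure Hom (M N : DGMod R) where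
  /-- the underlying linear map -/
  toLin : M.M →ₗ[R.A] N.M
  map_mem : ∀ (i : ℤ) (m : M.M), m ∈ M.gr i → toLin m ∈ N.gr i
  map_d : ∀ m : M.M, toLin (M.d m) = N.d (toLin m)

/-- A morphism of dg modules is a quasi-isomorphism if it induces a bijection between the
homology groups (cycles modulo boundaries). -/
def Hom.IsQuasiIso {M N : DGMod R} (f : Hom M N) : Prop :=
  (∀ m, M.d m = 0 → (∃ n, f.toLin m = N.d n) → ∃ m', m = M.d m') ∧
    ∀ n, N.d n = 0 → ∃ m n', M.d m = 0 ∧ n = f.toLin m + N.d n'

/-- A short exact sequence of dg modules. -/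
structure IsShortExact {M' M M'' : DGMod R} (f : Hom M' M) (g : Hom M M'') : Prop where
  inj : Function.Injective f.toLin
  exact : Function.Exact f.toLin g.toLin
  surj : Function.Surjective g.toLin

/-- A dg ring as a left dg module over itself. -/
def self (R : DGRing) : DGMod R where
  M := R.A
  gr := R.gr
  internal := R.internal
  smul_mem i j a m ha hm := R.mul_mem i j a m ha hm
  d := R.d
  d_mem := R.d_mem
  d_d := R.d_d
  leibniz i a m ha := R.leibniz i a m ha

end DGMod

/-- The perfect dg modules over `R`: the smallest class of dg modules that contains `R`, is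
invariant under quasi-isomorphism, has the two-out-of-three property for short exact sequences
and is closed under retracts.  (This is the thick subcategory of the derived category of `R`
generated by `R`.) -/
inductive IsPerfect {R : DGRing} : DGMod R → Prop
  | self : IsPerfect (DGMod.self R)
  | quasiIso {M N : DGMod R} (f : DGMod.Hom M N) (hf : f.IsQuasiIso) :
      IsPerfect M → IsPerfect N
  | quasiIso' {M N : DGMod R} (f : DGMod.Hom M N) (hf : f.IsQuasiIso) :
      IsPerfect N → IsPerfect M
  | ext₁ {M' M M'' : DGMod R} (f : DGMod.Hom M' M) (g : DGMod.Hom M M'')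
      (h : DGMod.IsShortExact f g) : IsPerfect M → IsPerfect M'' → IsPerfect M'
  | ext₂ {M' M M'' : DGMod R} (f : DGMod.Hom M' M) (g : DGMod.Hom M M'')
      (h : DGMod.IsShortExact f g) : IsPerfect M' → IsPerfect M'' → IsPerfect M
  | ext₃ {M' M M'' : DGMod R} (f : DGMod.Hom M' M) (g : DGMod.Hom M M'')
      (h : DGMod.IsShortExact f g) : IsPerfect M' → IsPerfect M → IsPerfect M''
  | retract {M N : DGMod R} (s : DGMod.Hom M N) (r : DGMod.Hom N M)
      (h : ∀ m, r.toLin (s.toLin m) = m) : IsPerfect N → IsPerfect M

/-- The perfect dg modules over `R`, as a type. -/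
def Perf (R : DGRing) : Type 1 := {M : DGMod R // IsPerfect M}

/-- The relations of the Grothendieck group: quasi-isomorphic perfect modules have the same
class and a short exact sequence of perfect modules gives an additive relation. -/
inductive K0Rel (R : DGRing) : FreeAbelianGroup (Perf R) → Prop
  | quasiIso (M N : Perf R) (f : DGMod.Hom M.1 N.1) (hf : f.IsQuasiIso) :
      K0Rel R (FreeAbelianGroup.of M - FreeAbelianGroup.of N)
  | ext (M' M M'' : Perf R) (f : DGMod.Hom M'.1 M.1) (g : DGMod.Hom M.1 M''.1)
      (h : DGMod.IsShortExact f g) :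
      K0Rel R (FreeAbelianGroup.of M - FreeAbelianGroup.of M' - FreeAbelianGroup.of M'')

/-- The Grothendieck group `K_0(R)` of the perfect dg modules over `R`. -/
def K0 (R : DGRing) : Type 1 :=
  FreeAbelianGroup (Perf R) ⧸ AddSubgroup.closure {x | K0Rel R x}

noncomputable instance (R : DGRing) : AddCommGroup (K0 R) :=
  QuotientAddGroup.Quotient.addCommGroup _

/-- The class `[M]` in `K_0(R)` of a perfect dg module `M`. -/
noncomputable def K0.mk {R : DGRing} (M : Perf R) : K0 R :=
  QuotientAddGroup.mk (FreeAbelianGroup.of M)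

/-- The unit `[R]` of `K_0(R)`, the class of the free module of rank one. -/
noncomputable def K0.unit (R : DGRing) : K0 R := K0.mk ⟨DGMod.self R, IsPerfect.self⟩

/-- A ring homomorphism of degree zero from the homology ring `H_*(R)` of a dg ring to a
`ℤ`-graded ring `(B, 𝓑)`, given on homogeneous cycles. -/
structure HomologyRingHom (R : DGRing) (B : Type) [Ring B] (𝓑 : ℤ → AddSubgroup B) where
  /-- the value on a homogeneous cycle of degree `i` -/
  f : ∀ (i : ℤ) (x : R.A), x ∈ R.gr i → R.d x = 0 → B
  mem : ∀ i x hx dx, f i x hx dx ∈ 𝓑 i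
  map_add : ∀ i x y hx dx hy dy hxy dxy, f i (x + y) hxy dxy = f i x hx dx + f i y hy dy
  map_boundary : ∀ i y (_ : y ∈ R.gr (i + 1)) hx dx, f i (R.d y) hx dx = 0
  map_one : ∀ h1 d1, f 0 1 h1 d1 = 1
  map_mul : ∀ i j x y hx dx hy dy hxy dxy,
    f (i + j) (x * y) hxy dxy = f i x hx dx * f j y hy dy

end Pool.Agent.H881R2
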