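import Pool.Agent.H881R2.DG

/-! The chain complex underlying a dg module. -/

set_option autoImplicit false

namespace Pool.Agent.H881R2

open CategoryTheory

namespace DGMod

variable {R : DGRing}

/-- The differential as a map from degree `i + 1` to degree `i`. -/
def dGr (M : DGMod R) (i : ℤ) : M.gr (i + 1) →+ M.gr i where
  toFun x := ⟨M.d x.1, M.d_mem i x.1 x.2⟩
  map_zero' := Subtype.ext (map_zero M.d)
  map_add' x y := Subtype.ext (map_add M.d x.1 y.1)

/-- The underlying chain complex of abelian groups of a dg module. -/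
noncomputable def complex (M : DGMod R) : ChainComplex (ModuleCat.{0} ℤ) ℤ :=
  ChainComplex.of (fun i => ModuleCat.of ℤ (M.gr i))
    (fun i => ModuleCat.ofHom (M.dGr i).toIntLinearMap)
    (fun i => by
      ext x
      exact M.d_d _)

lemma complex_d (M : DGMod R) (i : ℤ) :
    M.complex.d (i + 1) i = ModuleCat.ofHom (M.dGr i).toIntLinearMap :=
  ChainComplex.of_d (fun i => ModuleCat.of ℤ (M.gr i))
    (fun i => ModuleCat.ofHom (M.dGr i).toIntLinearMap) i

/-- A morphism in degree `i`. -/
def Hom.gr {M N : DGMod R} (f : Hom M N) (i : ℤ) : M.gr i →+ N.gr i where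
  toFun x := ⟨f.toLin x.1, f.map_mem i x.1 x.2⟩
  map_zero' := Subtype.ext (map_zero f.toLin)
  map_add' x y := Subtype.ext (map_add f.toLin x.1 y.1)

/-- The chain map underlying a morphism of dg modules. -/
noncomputable def Hom.complexMap {M N : DGMod R} (f : Hom M N) : M.complex ⟶ N.complex :=
  ChainComplex.ofHom (fun i => ModuleCat.ofHom (f.gr i).toIntLinearMap)
    (fun i => by
      rw [complex_d, complex_d]
      ext x
      exact Subtype.ext (f.map_d x.1).symm)

end DGMod

end Pool.Agent.H881R2
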