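import Pool.Agent.H881R2.DGComplex

/-! Quasi-isomorphisms of dg modules and of the underlying complexes. -/

set_option autoImplicit false

namespace Pool.Agent.H881R2

open CategoryTheory

/-- components of a graded additive map -/
lemma comp_gr {M N : Type} [AddCommGroup M] [AddCommGroup N] (𝓜 : ℤ → AddSubgroup M)
    (𝓝 : ℤ → AddSubgroup N) [DirectSum.Decomposition 𝓜] [DirectSum.Decomposition 𝓝]
    (f : M →+ N) (hf : ∀ i m, m ∈ 𝓜 i → f m ∈ 𝓝 i) (m : M) (i : ℤ) :
    ((DirectSum.decompose 𝓝 (f m) i : 𝓝 i) : N) = f (DirectSum.decompose 𝓜 m i : 𝓜 i) := by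
  induction m using DirectSum.Decomposition.inductionOn 𝓜 with
  | zero => simp
  | @homogeneous j m =>
    by_cases h : j = i
    · subst h
      rw [DirectSum.decompose_of_mem_same 𝓝 (hf j _ m.2), DirectSum.decompose_of_mem_same 𝓜 m.2]
    · rw [DirectSum.decompose_of_mem_ne 𝓝 (hf j _ m.2) h, DirectSum.decompose_of_mem_ne 𝓜 m.2 h,
        map_zero]
  | add a b ha hb => simp [DirectSum.decompose_add, ha, hb]

/-- components of an additive map of degree `-1` -/
lemma comp_gr' {M N : Type} [AddCommGroup M] [AddCommGroup N] (𝓜 : ℤ → AddSubgroup M)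
    (𝓝 : ℤ → AddSubgroup N) [DirectSum.Decomposition 𝓜] [DirectSum.Decomposition 𝓝]
    (f : M →+ N) (hf : ∀ i m, m ∈ 𝓜 (i + 1) → f m ∈ 𝓝 i) (m : M) (i : ℤ) :
    ((DirectSum.decompose 𝓝 (f m) i : 𝓝 i) : N) =
      f (DirectSum.decompose 𝓜 m (i + 1) : 𝓜 (i + 1)) := by
  induction m using DirectSum.Decomposition.inductionOn 𝓜 with
  | zero => simp
  | @homogeneous j m =>
    obtain ⟨k, rfl⟩ : ∃ k, j = k + 1 := ⟨j - 1, by ring⟩
    by_cases h : k = i
    · subst h
      rw [DirectSum.decompose_of_mem_same 𝓝 (hf k _ m.2), DirectSum.decompose_of_mem_same 𝓜 m.2]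
    · rw [DirectSum.decompose_of_mem_ne 𝓝 (hf k _ m.2) h,
        DirectSum.decompose_of_mem_ne 𝓜 m.2 (fun e => h (add_right_cancel e)), map_zero]
  | add a b ha hb => simp [DirectSum.decompose_add, ha, hb]

section elem

variable (K : ChainComplex (ModuleCat.{0} ℤ) ℤ)

lemma rel_succ' (i : ℤ) : (ComplexShape.down ℤ).Rel (i + 1) i := rfl

lemma pi_surj (i : ℤ) : Function.Surjective (K.homologyπ i).hom :=
  (ModuleCat.epi_iff_surjective _).mp inferInstance

lemma icyc_inj (i : ℤ) : Function.Injective (K.iCycles i).hom :=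
  (ModuleCat.mono_iff_injective _).mp inferInstance

lemma exists_cycle (i j : ℤ) (hij : i = j + 1) (x : K.X i) (hx : (K.d i j).hom x = 0) :
    ∃ c : K.cycles i, (K.iCycles i).hom c = x := by
  subst hij
  have ex : (ShortComplex.mk (K.iCycles (j + 1)) (K.d (j + 1) j) (by simp)).Exact :=
    ShortComplex.exact_of_f_is_kernel _ (K.cyclesIsKernel (j + 1) j
      ((ComplexShape.down ℤ).next_eq' (rel_succ' j)))
  rw [ShortComplex.moduleCat_exact_iff] at ex
  exact ex x hx

lemma d_icyc (i j : ℤ) (c : K.cycles i) : (K.d i j).hom ((K.iCycles i).hom c) = 0 := by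
  have := congrArg (fun t => t.hom c) (K.iCycles_d i j)
  exact this

lemma icyc_toCycles (i j : ℤ) (x : K.X i) :
    (K.iCycles j).hom ((K.toCycles i j).hom x) = (K.d i j).hom x := by
  have := congrArg (fun t => t.hom x) (K.toCycles_i i j)
  exact this

lemma pi_toCycles (i j : ℤ) (x : K.X i) :
    (K.homologyπ j).hom ((K.toCycles i j).hom x) = 0 := by
  have := congrArg (fun t => t.hom x) (K.toCycles_comp_homologyπ i j)
  exact this

lemma exists_of_pi_eq_zero (i j : ℤ) (hij : i = j + 1) (c : K.cycles j)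
    (hc : (K.homologyπ j).hom c = 0) : ∃ x : K.X i, (K.toCycles i j).hom x = c := by
  subst hij
  have ex : (ShortComplex.mk (K.toCycles (j + 1) j) (K.homologyπ j) (by simp)).Exact :=
    ShortComplex.exact_of_g_is_cokernel _ (K.homologyIsCokernel (j + 1) j
      ((ComplexShape.down ℤ).prev_eq' (rel_succ' j)))
  rw [ShortComplex.moduleCat_exact_iff] at ex
  exact ex c hc

end elem

/-- A chain map which is bijective on homology in the elementary sense is a
quasi-isomorphism. -/
lemma quasiIso_of_elem {K L : ChainComplex (ModuleCat.{0} ℤ) ℤ} (φ : K ⟶ L)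
    (hinj : ∀ (i j k : ℤ), j = k + 1 → i = j + 1 → ∀ (x : K.X j), (K.d j k).hom x = 0 →
      (∃ y : L.X i, (φ.f j).hom x = (L.d i j).hom y) → ∃ x' : K.X i, x = (K.d i j).hom x')
    (hsurj : ∀ (i j k : ℤ), j = k + 1 → i = j + 1 → ∀ (y : L.X j), (L.d j k).hom y = 0 →
      ∃ (x : K.X j) (y' : L.X i), (K.d j k).hom x = 0 ∧
        y = (φ.f j).hom x + (L.d i j).hom y') : QuasiIso φ := by
  rw [quasiIso_iff]
  intro j
  rw [quasiIsoAt_iff_isIso_homologyMap, ConcreteCategory.isIso_iff_bijective]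
  have nat : ∀ c : K.cycles j, (HomologicalComplex.homologyMap φ j).hom ((K.homologyπ j).hom c) =
      (L.homologyπ j).hom ((HomologicalComplex.cyclesMap φ j).hom c) := by
    intro c
    have := congrArg (fun t => t.hom c) (HomologicalComplex.homologyπ_naturality φ j)
    exact this
  have nat' : ∀ c : K.cycles j, (L.iCycles j).hom ((HomologicalComplex.cyclesMap φ j).hom c) =
      (φ.f j).hom ((K.iCycles j).hom c) := by
    intro c
    have := congrArg (fun t => t.hom c) (HomologicalComplex.cyclesMap_i φ j)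
    exact this
  constructor
  · refine (injective_iff_map_eq_zero (HomologicalComplex.homologyMap φ j).hom).mpr ?_
    intro z hz
    obtain ⟨c, rfl⟩ := pi_surj K j z
    rw [nat] at hz
    obtain ⟨y, hy⟩ := exists_of_pi_eq_zero L (j + 1) j rfl _ hz
    obtain ⟨x', hx'⟩ := hinj (j + 1) j (j - 1) (by ring) rfl ((K.iCycles j).hom c)
      (d_icyc K _ _ _) ⟨y, by rw [← nat', ← hy, icyc_toCycles]⟩
    have : c = (K.toCycles (j + 1) j).hom x' := by
      apply icyc_inj K j
      rw [icyc_toCycles, ← hx']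
    rw [this, pi_toCycles]
  · intro z
    obtain ⟨c, rfl⟩ := pi_surj L j z
    obtain ⟨x, y', hx, hy⟩ := hsurj (j + 1) j (j - 1) (by ring) rfl ((L.iCycles j).hom c)
      (d_icyc L _ _ _)
    obtain ⟨c', hc'⟩ := exists_cycle K j (j - 1) (by ring) x hx
    refine ⟨(K.homologyπ j).hom c', ?_⟩
    have e : c = (HomologicalComplex.cyclesMap φ j).hom c' + (L.toCycles (j + 1) j).hom y' := by
      apply icyc_inj L j
      rw [map_add, nat', icyc_toCycles, hc', ← hy]
    show (HomologicalComplex.homologyMap φ j).hom ((K.homologyπ j).hom c') = _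
    rw [nat, e, map_add, pi_toCycles, add_zero]

namespace DGMod

variable {R : DGRing}

lemma Hom.quasiIso {M N : DGMod R} (f : Hom M N) (hf : f.IsQuasiIso) :
    QuasiIso f.complexMap := by
  let dM := M.internal.chooseDecomposition
  let dN := N.internal.chooseDecomposition
  refine quasiIso_of_elem _ ?_ ?_
  · rintro i j k rfl rfl x hx ⟨y, hy⟩
    rw [complex_d] at hx hy ⊢
    have hx' : M.d x.1 = 0 := congrArg Subtype.val hx
    have hy' : f.toLin x.1 = N.d y.1 := congrArg Subtype.val hy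
    obtain ⟨m', hm'⟩ := hf.1 x.1 hx' ⟨y.1, hy'⟩
    refine ⟨DirectSum.decompose M.gr m' (k + 1 + 1), Subtype.ext ?_⟩
    show x.1 = M.d (DirectSum.decompose M.gr m' (k + 1 + 1) : M.gr (k + 1 + 1))
    rw [← comp_gr' M.gr M.gr M.d M.d_mem m' (k + 1), ← hm',
      DirectSum.decompose_of_mem_same M.gr x.2]
  · rintro i j k rfl rfl y hy
    rw [complex_d] at hy
    have hy' : N.d y.1 = 0 := congrArg Subtype.val hy
    obtain ⟨m, n', hm, hn⟩ := hf.2 y.1 hy'
    refine ⟨DirectSum.decompose M.gr m (k + 1), DirectSum.decompose N.gr n' (k + 1 + 1), ?_, ?_⟩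
    · rw [complex_d]
      refine Subtype.ext ?_
      show M.d (DirectSum.decompose M.gr m (k + 1) : M.gr (k + 1)) = 0
      rw [← comp_gr' M.gr M.gr M.d M.d_mem m k, hm]
      simp
    · rw [complex_d]
      refine Subtype.ext ?_
      show y.1 = f.toLin (DirectSum.decompose M.gr m (k + 1) : M.gr (k + 1)) +
        N.d (DirectSum.decompose N.gr n' (k + 1 + 1) : N.gr (k + 1 + 1))
      have e1 := comp_gr M.gr N.gr f.toLin.toAddMonoidHom f.map_mem m (k + 1)
      rw [LinearMap.toAddMonoidHom_coe] at e1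
      rw [← comp_gr' N.gr N.gr N.d N.d_mem n' (k + 1), ← e1]
      have e2 := congrArg (fun t => ((DirectSum.decompose N.gr t (k + 1) : N.gr (k + 1)) : N.M)) hn
      simp only [DirectSum.decompose_add, DirectSum.add_apply, AddSubgroup.coe_add] at e2
      rw [DirectSum.decompose_of_mem_same N.gr y.2] at e2
      exact e2

end DGMod

end Pool.Agent.H881R2
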