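import Pool.Agent.H881R2.DGComplex

/-! The Euler characteristic of the homology of a complex of abelian groups and its additivity. -/

set_option autoImplicit false

namespace Pool.Agent.H881R2

open CategoryTheory Module

/-- abbreviation: complexes of abelian groups -/
abbrev Cx := ChainComplex (ModuleCat.{0} ℤ) ℤ

/-- The Betti number in degree `i`. -/
noncomputable def betti (K : Cx) (i : ℤ) : ℕ := finrank ℤ (K.homology i)

/-- Total homology finitely generated. -/
def FinHom (K : Cx) : Prop :=
  (∀ i, IsNoetherian ℤ (K.homology i)) ∧ (Function.support (betti K)).Finite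

/-- The Euler characteristic of the homology. -/
noncomputable def euler (K : Cx) : ℤ := ∑ᶠ i : ℤ, (i.negOnePow : ℤ) * (betti K i : ℤ)

/-- The rank of the image of a linear map. -/
noncomputable def rnk {R M N : Type} [CommRing R] [AddCommGroup M] [Module R M]
    [AddCommGroup N] [Module R N] (g : M →ₗ[R] N) : ℕ := finrank R (LinearMap.range g)

lemma range_add_ker {R M N L : Type} [CommRing R] [IsDomain R] [AddCommGroup M] [Module R M]
    [AddCommGroup N] [Module R N] [AddCommGroup L] [Module R L] [Module.Finite R M]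
    (f : L →ₗ[R] M) (g : M →ₗ[R] N) (h : LinearMap.range f = LinearMap.ker g) :
    finrank R M = rnk f + rnk g := by
  unfold rnk
  rw [h, add_comm, ← (LinearMap.quotKerEquivRange g).finrank_eq]
  exact (Submodule.finrank_quotient_add_finrank (LinearMap.ker g)).symm

lemma rank_split {A B C : ModuleCat.{0} ℤ} (f : A ⟶ B) (g : B ⟶ C) (w : f ≫ g = 0)
    (h : (ShortComplex.mk f g w).Exact) [IsNoetherian ℤ B] :
    finrank ℤ B = rnk f.hom + rnk g.hom := by
  rw [ShortComplex.moduleCat_exact_iff_range_eq_ker] at h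
  exact range_add_ker f.hom g.hom h

lemma noeth_mid {A B C : ModuleCat.{0} ℤ} (f : A ⟶ B) (g : B ⟶ C) (w : f ≫ g = 0)
    (h : (ShortComplex.mk f g w).Exact) [IsNoetherian ℤ A] [IsNoetherian ℤ C] :
    IsNoetherian ℤ B := by
  rw [ShortComplex.moduleCat_exact_iff_range_eq_ker] at h
  exact isNoetherian_of_range_eq_ker f.hom g.hom h

lemma betti_eq_of_quasiIso {K L : Cx} (f : K ⟶ L) [QuasiIso f] (i : ℤ) :
    betti K i = betti L i :=
  (((isoOfQuasiIsoAt f i).toLinearEquiv)).finrank_eq

lemma finHom_of_quasiIso {K L : Cx} (f : K ⟶ L) [QuasiIso f] (h : FinHom K) : FinHom L := by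
  refine ⟨fun i => ?_, ?_⟩
  · have := h.1 i
    exact isNoetherian_of_linearEquiv (isoOfQuasiIsoAt f i).toLinearEquiv
  · have : betti L = betti K := funext fun i => (betti_eq_of_quasiIso f i).symm
    rw [this]; exact h.2

lemma finHom_of_quasiIso' {K L : Cx} (f : K ⟶ L) [QuasiIso f] (h : FinHom L) : FinHom K := by
  refine ⟨fun i => ?_, ?_⟩
  · have := h.1 i
    exact isNoetherian_of_linearEquiv (isoOfQuasiIsoAt f i).toLinearEquiv.symm
  · have : betti K = betti L := funext fun i => (betti_eq_of_quasiIso f i)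
    rw [this]; exact h.2

lemma euler_eq_of_quasiIso {K L : Cx} (f : K ⟶ L) [QuasiIso f] : euler K = euler L := by
  unfold euler
  refine finsum_congr fun i => ?_
  rw [betti_eq_of_quasiIso f i]

lemma finHom_of_retract {K L : Cx} (s : K ⟶ L) (r : L ⟶ K) (h : s ≫ r = 𝟙 K)
    (hL : FinHom L) : FinHom K := by
  have inj : ∀ i, Function.Injective (HomologicalComplex.homologyMap s i).hom := by
    intro i
    have e : HomologicalComplex.homologyMap s i ≫ HomologicalComplex.homologyMap r i = 𝟙 _ := by
      rw [← HomologicalComplex.homologyMap_comp, h, HomologicalComplex.homologyMap_id]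
    intro x y hxy
    have e1 := congrArg (fun t => t.hom x) e
    have e2 := congrArg (fun t => t.hom y) e
    simp only [ModuleCat.hom_comp, LinearMap.comp_apply, ModuleCat.hom_id, LinearMap.id_apply]
      at e1 e2
    rw [← e1, ← e2, hxy]
  refine ⟨fun i => ?_, ?_⟩
  · have := hL.1 i
    exact isNoetherian_of_injective _ (inj i)
  · refine hL.2.subset fun i hi => ?_
    rw [Function.mem_support] at hi ⊢
    have := hL.1 i
    have hle : betti K i ≤ betti L i :=
      LinearMap.finrank_le_finrank_of_injective (inj i)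
    omega

section LES

variable {S : ShortComplex Cx} (hS : S.ShortExact)

lemma rel_succ (i : ℤ) : (ComplexShape.down ℤ).Rel (i + 1) i := rfl

/-- rank of the connecting map into degree `i` -/
noncomputable def rD (i : ℤ) : ℕ :=
  rnk (hS.δ (i + 1) i (rel_succ i)).hom

lemma b1 (i : ℤ) [IsNoetherian ℤ (S.X₁.homology i)] :
    betti S.X₁ i = rD hS i +
      rnk (HomologicalComplex.homologyMap S.f i).hom :=
  rank_split _ _ _ (hS.homology_exact₁ (i + 1) i (rel_succ i))

include hS in
lemma b2 (i : ℤ) [IsNoetherian ℤ (S.X₂.homology i)] :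
    betti S.X₂ i = rnk (HomologicalComplex.homologyMap S.f i).hom +
      rnk (HomologicalComplex.homologyMap S.g i).hom :=
  rank_split _ _ _ (hS.homology_exact₂ i)

lemma b3 (i : ℤ) [IsNoetherian ℤ (S.X₃.homology (i + 1))] :
    betti S.X₃ (i + 1) =
      rnk (HomologicalComplex.homologyMap S.g (i + 1)).hom +
      rD hS i :=
  rank_split _ _ _ (hS.homology_exact₃ (i + 1) i (rel_succ i))

include hS in
lemma finHom₁ (h2 : FinHom S.X₂) (h3 : FinHom S.X₃) : FinHom S.X₁ := by
  have n1 : ∀ i, IsNoetherian ℤ (S.X₁.homology i) := fun i =>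
    have := h3.1 (i + 1); have := h2.1 i
    noeth_mid _ _ _ (hS.homology_exact₁ (i + 1) i (rel_succ i))
  refine ⟨n1, ?_⟩
  refine (h2.2.union (h3.2.preimage (f := fun i : ℤ => i + 1)
    (add_left_injective 1).injOn)).subset fun i hi => ?_
  rw [Function.mem_support] at hi
  have := h3.1 (i + 1); have := h2.1 i; have := n1 i
  have e1 := b1 hS i; have e2 := b2 hS i; have e3 := b3 hS i
  simp only [Set.mem_union, Function.mem_support, Set.mem_preimage]
  omega

include hS in
lemma finHom₂ (h1 : FinHom S.X₁) (h3 : FinHom S.X₃) : FinHom S.X₂ := by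
  have n2 : ∀ i, IsNoetherian ℤ (S.X₂.homology i) := fun i =>
    have := h1.1 i; have := h3.1 i
    noeth_mid _ _ _ (hS.homology_exact₂ i)
  refine ⟨n2, ?_⟩
  refine (h1.2.union h3.2).subset fun i hi => ?_
  rw [Function.mem_support] at hi
  have := h3.1 i; have := h1.1 i; have := n2 i
  have e1 := b1 hS i; have e2 := b2 hS i
  have e3 : betti S.X₃ i = rnk (HomologicalComplex.homologyMap S.g i).hom + rD hS (i - 1) := by
    have hi : IsNoetherian ℤ (S.X₃.homology (i - 1 + 1)) := h3.1 _
    have := b3 hS (i - 1)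
    rw [sub_add_cancel] at this
    exact this
  simp only [Set.mem_union, Function.mem_support]
  omega

include hS in
lemma finHom₃ (h1 : FinHom S.X₁) (h2 : FinHom S.X₂) : FinHom S.X₃ := by
  have n3 : ∀ i, IsNoetherian ℤ (S.X₃.homology i) := fun i => by
    have := h1.1 (i - 1); have := h2.1 i
    exact noeth_mid _ _ _ (hS.homology_exact₃ i (i - 1) (by
      show (i - 1) + 1 = i
      ring))
  refine ⟨n3, ?_⟩
  refine (h2.2.union (h1.2.preimage (f := fun i : ℤ => i - 1)
    (sub_left_injective).injOn)).subset fun i hi => ?_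
  rw [Function.mem_support] at hi
  have := n3 i; have := h1.1 (i - 1); have := h2.1 i
  have e1 := b1 hS (i - 1); have e2 := b2 hS i
  have e3 : betti S.X₃ i = rnk (HomologicalComplex.homologyMap S.g i).hom + rD hS (i - 1) := by
    have hi : IsNoetherian ℤ (S.X₃.homology (i - 1 + 1)) := n3 _
    have := b3 hS (i - 1)
    rw [sub_add_cancel] at this
    exact this
  simp only [Set.mem_union, Function.mem_support, Set.mem_preimage]
  omega

include hS in
lemma euler_add (h1 : FinHom S.X₁) (h2 : FinHom S.X₂) (h3 : FinHom S.X₃) :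
    euler S.X₂ = euler S.X₁ + euler S.X₃ := by
  have e : ∀ i : ℤ, (betti S.X₂ i : ℤ) =
      betti S.X₁ i + betti S.X₃ i - (rD hS i + rD hS (i - 1)) := by
    intro i
    have := h3.1 i; have := h1.1 i; have := h2.1 i
    have e1 := b1 hS i; have e2 := b2 hS i
    have e3 : betti S.X₃ i = rnk (HomologicalComplex.homologyMap S.g i).hom + rD hS (i - 1) := by
      have hi : IsNoetherian ℤ (S.X₃.homology (i - 1 + 1)) := h3.1 _
      have := b3 hS (i - 1)
      rw [sub_add_cancel] at this
      exact this
    omega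
  have hr : (Function.support (rD hS)).Finite := by
    refine h1.2.subset fun i hi => ?_
    rw [Function.mem_support] at hi ⊢
    have := h1.1 i
    have := b1 hS i
    omega
  have f1 : (Function.support fun i : ℤ => (i.negOnePow : ℤ) * (betti S.X₁ i : ℤ)).Finite :=
    h1.2.subset fun i hi => by
      rw [Function.mem_support] at hi ⊢
      intro e0; apply hi; rw [e0]; simp
  have f3 : (Function.support fun i : ℤ => (i.negOnePow : ℤ) * (betti S.X₃ i : ℤ)).Finite :=
    h3.2.subset fun i hi => by
      rw [Function.mem_support] at hi ⊢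
      intro e0; apply hi; rw [e0]; simp
  have fr : (Function.support fun i : ℤ => (i.negOnePow : ℤ) * (rD hS i : ℤ)).Finite :=
    hr.subset fun i hi => by
      rw [Function.mem_support] at hi ⊢
      intro e0; apply hi; rw [e0]; simp
  have fr' : (Function.support fun i : ℤ => (i.negOnePow : ℤ) * (rD hS (i - 1) : ℤ)).Finite := by
    refine (hr.preimage (f := fun i : ℤ => i - 1) (sub_left_injective).injOn).subset
      fun i hi => ?_
    rw [Function.mem_support] at hi
    rw [Set.mem_preimage, Function.mem_support]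
    intro e0; apply hi; rw [e0]; simp
  have key : ∑ᶠ i : ℤ, ((i.negOnePow : ℤ) * (rD hS i : ℤ) +
      (i.negOnePow : ℤ) * (rD hS (i - 1) : ℤ)) = 0 := by
    rw [finsum_add_distrib fr fr']
    have : ∑ᶠ i : ℤ, (i.negOnePow : ℤ) * (rD hS (i - 1) : ℤ) =
        ∑ᶠ i : ℤ, -((i.negOnePow : ℤ) * (rD hS i : ℤ)) := by
      rw [← finsum_comp_equiv (Equiv.addRight (1 : ℤ))]
      refine finsum_congr fun i => ?_
      simp only [Equiv.coe_addRight, add_sub_cancel_right, Int.negOnePow_succ, Units.val_neg]
      ring
    rw [this, finsum_neg_distrib, add_neg_cancel]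
  unfold euler
  have : ∀ i : ℤ, (i.negOnePow : ℤ) * (betti S.X₂ i : ℤ) =
      ((i.negOnePow : ℤ) * (betti S.X₁ i : ℤ) + (i.negOnePow : ℤ) * (betti S.X₃ i : ℤ)) -
      ((i.negOnePow : ℤ) * (rD hS i : ℤ) + (i.negOnePow : ℤ) * (rD hS (i - 1) : ℤ)) := by
    intro i; rw [e i]; ring
  rw [finsum_congr this, finsum_sub_distrib, key, finsum_add_distrib f1 f3, sub_zero]
  · exact (f1.union f3).subset (Function.support_add _ _)
  · exact (fr.union fr').subset (Function.support_add _ _)

end LES

end Pool.Agent.H881R2
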