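import Pool.Agent.H881R2.Euler
import Pool.Agent.H881R2.DGQuasi

/-! The Euler characteristic on `K_0` of a dg ring whose own homology is finitely generated. -/

set_option autoImplicit false

namespace Pool.Agent.H881R2

open CategoryTheory Module

variable {R : DGRing}

namespace DGMod

/-- The short complex of complexes underlying a composable pair with zero composite. -/
noncomputable def shortComplex {M' M M'' : DGMod R} (f : Hom M' M) (g : Hom M M'')
    (h : IsShortExact f g) : ShortComplex Cx :=
  ShortComplex.mk f.complexMap g.complexMap (by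
    ext i x
    exact Subtype.ext (h.exact.apply_apply_eq_zero x.1))

lemma shortExact {M' M M'' : DGMod R} (f : Hom M' M) (g : Hom M M'')
    (h : IsShortExact f g) : (shortComplex f g h).ShortExact := by
  apply HomologicalComplex.shortExact_of_degreewise_shortExact
  intro i
  let d' := M'.internal.chooseDecomposition
  let d := M.internal.chooseDecomposition
  let d'' := M''.internal.chooseDecomposition
  have ex : ((shortComplex f g h).map (HomologicalComplex.eval (ModuleCat ℤ)
      (ComplexShape.down ℤ) i)).Exact := by
    rw [ShortComplex.moduleCat_exact_iff]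
    intro x hx
    have hx' : g.toLin x.1 = 0 := congrArg Subtype.val hx
    obtain ⟨y, hy⟩ := (h.exact x.1).mp hx'
    refine ⟨DirectSum.decompose M'.gr y i, ?_⟩
    apply Subtype.ext
    show f.toLin (DirectSum.decompose M'.gr y i : M'.gr i) = x.1
    have := comp_gr M'.gr M.gr f.toLin.toAddMonoidHom f.map_mem y i
    rw [LinearMap.toAddMonoidHom_coe] at this
    rw [← this, hy, DirectSum.decompose_of_mem_same M.gr x.2]
  have hm : Mono ((shortComplex f g h).map (HomologicalComplex.eval (ModuleCat ℤ)
      (ComplexShape.down ℤ) i)).f := by
    rw [ModuleCat.mono_iff_injective]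
    intro x y hxy
    exact Subtype.ext (h.inj (congrArg Subtype.val hxy))
  have he : Epi ((shortComplex f g h).map (HomologicalComplex.eval (ModuleCat ℤ)
      (ComplexShape.down ℤ) i)).g := by
    rw [ModuleCat.epi_iff_surjective]
    intro y
    obtain ⟨x, hx⟩ := h.surj y.1
    refine ⟨DirectSum.decompose M.gr x i, ?_⟩
    apply Subtype.ext
    show g.toLin (DirectSum.decompose M.gr x i : M.gr i) = y.1
    have := comp_gr M.gr M''.gr g.toLin.toAddMonoidHom g.map_mem x i
    rw [LinearMap.toAddMonoidHom_coe] at this
    rw [← this, hx, DirectSum.decompose_of_mem_same M''.gr y.2]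
  exact { exact := ex, mono_f := hm, epi_g := he }

end DGMod

lemma IsPerfect.finHom (hR : FinHom (DGMod.self R).complex) {M : DGMod R} (h : IsPerfect M) :
    FinHom M.complex := by
  induction h with
  | self => exact hR
  | quasiIso f hf _ ih =>
    have := f.quasiIso hf
    exact finHom_of_quasiIso f.complexMap ih
  | quasiIso' f hf _ ih =>
    have := f.quasiIso hf
    exact finHom_of_quasiIso' f.complexMap ih
  | ext₁ f g h _ _ ih ih' => exact finHom₁ (DGMod.shortExact f g h) ih ih'
  | ext₂ f g h _ _ ih ih' => exact finHom₂ (DGMod.shortExact f g h) ih ih'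
  | ext₃ f g h _ _ ih ih' => exact finHom₃ (DGMod.shortExact f g h) ih ih'
  | retract s r h _ ih =>
    refine finHom_of_retract s.complexMap r.complexMap ?_ ih
    ext i x
    exact Subtype.ext (h x.1)

/-- The Euler characteristic as a homomorphism on `K_0`. -/
noncomputable def K0.euler (hR : FinHom (DGMod.self R).complex) : K0 R →+ ℤ :=
  QuotientAddGroup.lift _ (FreeAbelianGroup.lift fun M : Perf R => Pool.Agent.H881R2.euler M.1.complex)
    (by
      intro x hx
      rw [AddMonoidHom.mem_ker]
      induction hx using AddSubgroup.closure_induction with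
      | mem x hx =>
        induction hx with
        | quasiIso M N f hf =>
          rw [map_sub, FreeAbelianGroup.lift_apply_of, FreeAbelianGroup.lift_apply_of, sub_eq_zero]
          have := f.quasiIso hf
          exact euler_eq_of_quasiIso f.complexMap
        | ext M' M M'' f g h =>
          rw [map_sub, map_sub, FreeAbelianGroup.lift_apply_of, FreeAbelianGroup.lift_apply_of,
            FreeAbelianGroup.lift_apply_of]
          have := euler_add (DGMod.shortExact f g h) (M'.2.finHom hR) (M.2.finHom hR)
            (M''.2.finHom hR)
          have e : Pool.Agent.H881R2.euler M.1.complex =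
            Pool.Agent.H881R2.euler M'.1.complex + Pool.Agent.H881R2.euler M''.1.complex := this
          rw [e]; ring
      | zero => exact map_zero _
      | add a b _ _ ha hb => rw [map_add, ha, hb, add_zero]
      | neg a _ ha => rw [map_neg, ha, neg_zero])

lemma K0.euler_unit (hR : FinHom (DGMod.self R).complex) :
    K0.euler hR (K0.unit R) = Pool.Agent.H881R2.euler (DGMod.self R).complex := by
  show QuotientAddGroup.lift _ _ _ (QuotientAddGroup.mk _) = _
  rw [QuotientAddGroup.lift_mk]
  exact FreeAbelianGroup.lift_apply_of _ _

open scoped TensorProduct in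
/-- If the Euler characteristic of `H_*(R)` is not zero then `[R]` is nonzero in
`K_0(R) ⊗ ℚ`. -/
lemma K0.unit_ne_zero (hR : FinHom (DGMod.self R).complex)
    (h : Pool.Agent.H881R2.euler (DGMod.self R).complex ≠ 0) :
    (K0.unit R) ⊗ₜ[ℤ] (1 : ℚ) ≠ (0 : K0 R ⊗[ℤ] ℚ) := by
  intro e
  have := congrArg (TensorProduct.lift ((LinearMap.lsmul ℤ ℚ).comp
    (K0.euler hR).toIntLinearMap)) e
  rw [TensorProduct.lift.tmul, map_zero] at this
  simp only [LinearMap.comp_apply, AddMonoidHom.coe_toIntLinearMap, LinearMap.lsmul_apply,
    K0.euler_unit] at this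
  apply h
  simpa using this

end Pool.Agent.H881R2
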