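import Pool.Agent.H881R2.K0Euler

/-! Graded matrix rings as dg rings with zero differential. -/

set_option autoImplicit false

namespace Pool.Agent.H881R2

open CategoryTheory Module

section

variable {n : Type} [Fintype n] [DecidableEq n] (deg : n → ℤ)

/-- matrices supported on the entries `(a, b)` with `deg a - deg b = i` -/
def matGr (i : ℤ) : AddSubgroup (Matrix n n ℤ) where
  carrier := {X | ∀ a b, X a b ≠ 0 → deg a - deg b = i}
  zero_mem' a b h := absurd rfl h
  add_mem' {X Y} hX hY a b h := by
    by_cases h1 : X a b = 0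
    · refine hY a b fun h2 => h ?_
      rw [Matrix.add_apply, h1, h2, add_zero]
    · exact hX a b h1
  neg_mem' {X} hX a b h := hX a b fun h1 => h (by rw [Matrix.neg_apply, h1, neg_zero])

lemma single_mem (a b : n) (c : ℤ) : Matrix.single a b c ∈ matGr deg (deg a - deg b) := by
  intro a' b' h
  rw [Matrix.single_apply] at h
  by_cases hab : a = a' ∧ b = b'
  · rw [hab.1, hab.2]
  · rw [if_neg hab] at h; exact absurd rfl h

/-- the decomposition map -/
noncomputable def matDec : Matrix n n ℤ →+ DirectSum ℤ fun i => matGr deg i where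
  toFun X := ∑ p : n × n, DirectSum.of (fun i => matGr deg i) (deg p.1 - deg p.2)
    ⟨Matrix.single p.1 p.2 (X p.1 p.2), single_mem deg _ _ _⟩
  map_zero' := by
    refine Finset.sum_eq_zero fun p _ => ?_
    have : (⟨Matrix.single p.1 p.2 ((0 : Matrix n n ℤ) p.1 p.2), single_mem deg _ _ _⟩ :
        matGr deg (deg p.1 - deg p.2)) = 0 := Subtype.ext (by simp)
    rw [this, map_zero]
  map_add' X Y := by
    rw [← Finset.sum_add_distrib]
    refine Finset.sum_congr rfl fun p _ => ?_
    rw [← map_add]
    congr 1
    exact Subtype.ext (by simp [Matrix.single_add])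

lemma single_mem' {i : ℤ} (X : matGr deg i) (p : n × n) :
    Matrix.single p.1 p.2 (X.1 p.1 p.2) ∈ matGr deg i := by
  intro a' b' h
  rw [Matrix.single_apply] at h
  by_cases hab : p.1 = a' ∧ p.2 = b'
  · rw [if_pos hab, hab.1, hab.2] at h
    exact X.2 a' b' h
  · rw [if_neg hab] at h; exact absurd rfl h

/-- The grading is a decomposition. -/
noncomputable def matDecomposition : DirectSum.Decomposition (matGr deg) :=
  DirectSum.Decomposition.ofAddHom _ (matDec deg)
    (by
      ext X : 1
      simp only [matDec, AddMonoidHom.comp_apply, AddMonoidHom.coe_mk, ZeroHom.coe_mk, map_sum,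
        DirectSum.coeAddMonoidHom_of, AddMonoidHom.id_apply]
      rw [Fintype.sum_prod_type]
      exact (Matrix.matrix_eq_sum_single X).symm)
    (by
      refine DirectSum.addHom_ext fun i X => ?_
      simp only [AddMonoidHom.comp_apply, DirectSum.coeAddMonoidHom_of, AddMonoidHom.id_apply]
      have h1 : X = ∑ p : n × n, (⟨Matrix.single p.1 p.2 (X.1 p.1 p.2), single_mem' deg X p⟩ :
          matGr deg i) := by
        apply Subtype.ext
        rw [AddSubgroup.val_finsetSum, Fintype.sum_prod_type]
        exact Matrix.matrix_eq_sum_single X.1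
      conv_rhs => rw [h1]
      rw [map_sum]
      simp only [matDec, AddMonoidHom.coe_mk, ZeroHom.coe_mk]
      refine Finset.sum_congr rfl fun p _ => ?_
      by_cases h0 : X.1 p.1 p.2 = 0
      · have e1 : (⟨Matrix.single p.1 p.2 (X.1 p.1 p.2), single_mem deg _ _ _⟩ :
            matGr deg (deg p.1 - deg p.2)) = 0 := Subtype.ext (by simp [h0])
        have e2 : (⟨Matrix.single p.1 p.2 (X.1 p.1 p.2), single_mem' deg X p⟩ :
            matGr deg i) = 0 := Subtype.ext (by simp [h0])
        rw [e1, e2, map_zero, map_zero]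
      · have := X.2 p.1 p.2 h0
        subst this
        rfl)

/-- The ring of square matrices over `ℤ` with rows and columns in degrees `deg`, that is the
graded endomorphism ring of `⨁ ℤ[deg a]`, as a dg ring with zero differential. -/
noncomputable def matDG : DGRing where
  A := Matrix n n ℤ
  gr := matGr deg
  internal := (matDecomposition deg).isInternal
  one_mem a b h := by
    have : a = b := by
      by_contra hne
      exact h (Matrix.one_apply_ne hne)
    rw [this, sub_self]
  mul_mem i j X Y hX hY a b h := by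
    rw [Matrix.mul_apply] at h
    obtain ⟨c, -, hc⟩ := Finset.exists_ne_zero_of_sum_ne_zero h
    have h1 := hX a c (left_ne_zero_of_mul hc)
    have h2 := hY c b (right_ne_zero_of_mul hc)
    rw [← h1, ← h2]; ring
  d := 0
  d_mem i x _ := (matGr deg i).zero_mem
  d_d x := rfl
  leibniz i x y _ := by simp

/-- entries in degree `i` -/
abbrev Ent (i : ℤ) : Type := {p : n × n // deg p.1 - deg p.2 = i}

/-- The degree `i` part is free on the entries in degree `i`. -/
def grEquiv (i : ℤ) : matGr deg i ≃+ (Ent deg i → ℤ) where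
  toFun X p := X.1 p.1.1 p.1.2
  invFun f := ⟨fun a b => if h : deg a - deg b = i then f ⟨(a, b), h⟩ else 0, by
    intro a b h
    by_contra hne
    exact h (dif_neg hne)⟩
  left_inv X := by
    apply Subtype.ext
    funext a b
    show (if h : deg a - deg b = i then X.1 a b else 0) = X.1 a b
    by_cases h : deg a - deg b = i
    · rw [dif_pos h]
    · rw [dif_neg h]
      by_contra hne
      exact h (X.2 a b (Ne.symm hne))
  right_inv f := by
    funext p
    exact dif_pos p.2
  map_add' X Y := rfl

lemma self_d (i j : ℤ) : (DGMod.self (matDG deg)).complex.d i j = 0 := by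
  by_cases h : i = j + 1
  · subst h
    rw [DGMod.complex_d]
    rfl
  · exact (DGMod.self (matDG deg)).complex.shape i j (fun h' => h h'.symm)

/-- homology in degree `i` -/
noncomputable def homIso (i : ℤ) :
    (DGMod.self (matDG deg)).complex.homology i ≅ ModuleCat.of ℤ (matGr deg i) :=
  (ShortComplex.LeftHomologyData.ofZeros ((DGMod.self (matDG deg)).complex.sc i)
    (self_d deg _ _) (self_d deg _ _)).homologyIso

lemma betti_matDG (i : ℤ) :
    betti (DGMod.self (matDG deg)).complex i = Fintype.card (Ent deg i) := by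
  unfold betti
  rw [(homIso deg i).toLinearEquiv.finrank_eq, (grEquiv deg i).toIntLinearEquiv.finrank_eq]
  exact finrank_fintype_fun_eq_card ℤ

lemma finHom_matDG : FinHom (DGMod.self (matDG deg)).complex := by
  refine ⟨fun i => ?_, ?_⟩
  · exact isNoetherian_of_linearEquiv
      ((grEquiv deg i).toIntLinearEquiv.symm.trans (homIso deg i).toLinearEquiv.symm)
  · refine ((Finset.univ : Finset (n × n)).image fun p => deg p.1 - deg p.2).finite_toSet.subset
      fun i hi => ?_
    rw [Function.mem_support, betti_matDG] at hi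
    have hne : Nonempty (Ent deg i) := Fintype.card_pos_iff.mp (Nat.pos_of_ne_zero hi)
    obtain ⟨⟨p, hp⟩⟩ := hne
    simp only [Finset.coe_image, Finset.coe_univ, Set.image_univ, Set.mem_range]
    exact ⟨p, hp⟩

/-- A graded ring homomorphism from the graded matrix ring to an evenly graded ring vanishes on
the unit as soon as every index has a partner of the other parity. -/
lemma one_eq_zero {B : Type} [Ring B] (𝓑 : ℤ → AddSubgroup B)
    (hB : ∀ i, Odd i → 𝓑 i = ⊥) (h : HomologyRingHom (matDG deg) B 𝓑)
    (hdeg : ∀ a, ∃ b, Odd (deg a - deg b)) : (1 : B) = 0 := by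
  obtain ⟨F, Fmem, Fadd, Fone, Fmul⟩ : ∃ F : ∀ (i : ℤ) (X : Matrix n n ℤ), X ∈ matGr deg i → B,
      (∀ i X hX, F i X hX ∈ 𝓑 i) ∧
      (∀ i X Y hX hY hXY, F i (X + Y) hXY = F i X hX + F i Y hY) ∧
      (∀ h1, F 0 1 h1 = 1) ∧
      (∀ i j X Y hX hY hXY, F (i + j) (X * Y) hXY = F i X hX * F j Y hY) :=
    ⟨fun i X hX => h.f i X hX rfl, fun i X hX => h.mem i X hX rfl,
      fun i X Y hX hY hXY => h.map_add i X Y hX rfl hY rfl hXY rfl,
      fun h1 => h.map_one h1 rfl,
      fun i j X Y hX hY hXY => h.map_mul i j X Y hX rfl hY rfl hXY rfl⟩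
  have gen : ∀ (i j : ℤ) (X Y : Matrix n n ℤ) (_ : i = j) (_ : X = Y) (hx : X ∈ matGr deg i)
      (hy : Y ∈ matGr deg j), F i X hx = F j Y hy := by
    intro i j X Y hij hX hx hy; subst hij; subst hX; rfl
  -- the idempotents are sent to zero
  have key : ∀ (a : n) (c : ℤ) (h0 : Matrix.single a a c ∈ matGr deg 0),
      F 0 (Matrix.single a a c) h0 = 0 := by
    intro a c h0
    obtain ⟨b, hb⟩ := hdeg a
    have m1 : Matrix.single a b c ∈ matGr deg (deg a - deg b) := single_mem deg a b c
    have m2 : Matrix.single b a (1 : ℤ) ∈ matGr deg (deg b - deg a) := single_mem deg b a 1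
    have z1 : F _ _ m1 = 0 := by
      have := Fmem _ _ m1
      rw [hB _ hb] at this
      exact (AddSubgroup.mem_bot).mp this
    have e : (Matrix.single a b c : Matrix n n ℤ) * Matrix.single b a 1 = Matrix.single a a c := by
      rw [Matrix.single_mul_single_same, mul_one]
    have ez : deg a - deg b + (deg b - deg a) = 0 := by ring
    have m12 : (Matrix.single a b c : Matrix n n ℤ) * Matrix.single b a 1 ∈
        matGr deg (deg a - deg b + (deg b - deg a)) := by
      rw [e, ez]; exact h0
    have h3 := Fmul _ _ _ _ m1 m2 m12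
    rw [z1, zero_mul] at h3
    exact (gen _ _ _ _ ez e m12 h0).symm.trans h3
  have zero : ∀ (h0 : (0 : Matrix n n ℤ) ∈ matGr deg 0), F 0 0 h0 = 0 := by
    intro h0
    have e0 : (0 : Matrix n n ℤ) + 0 ∈ matGr deg 0 := (matGr deg 0).add_mem h0 h0
    have h1 := Fadd 0 0 0 h0 h0 e0
    have h2 := gen _ _ _ _ rfl (add_zero _) e0 h0
    rw [h1] at h2
    exact add_eq_left.mp h2
  -- additivity
  have sum : ∀ (s : Finset n) (h0 : ∑ a ∈ s, Matrix.single a a (1 : ℤ) ∈ matGr deg 0),
      F 0 (∑ a ∈ s, Matrix.single a a (1 : ℤ)) h0 = 0 := by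
    intro s
    induction s using Finset.induction_on with
    | empty =>
      intro h0
      exact (gen _ _ _ _ rfl Finset.sum_empty h0 (matGr deg 0).zero_mem).trans (zero _)
    | insert a s ha ih =>
      intro h0
      have ma : Matrix.single a a (1 : ℤ) ∈ matGr deg 0 := by
        have := single_mem deg a a 1
        rwa [sub_self] at this
      have ms : ∑ a ∈ s, Matrix.single a a (1 : ℤ) ∈ matGr deg 0 :=
        (matGr deg 0).sum_mem fun b _ => by
          have := single_mem deg b b 1
          rwa [sub_self] at this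
      have mm := (matGr deg 0).add_mem ma ms
      have h1 := Fadd 0 _ _ ma ms mm
      have h2 := gen _ _ _ _ rfl (Finset.sum_insert ha) h0 mm
      rw [h2, h1, key a 1 ma, ih ms, add_zero]
  have one : (1 : Matrix n n ℤ) = ∑ a : n, Matrix.single a a (1 : ℤ) := by
    ext a b
    rw [Matrix.sum_apply, Matrix.one_apply]
    by_cases hab : a = b
    · subst hab
      rw [if_pos rfl, Finset.sum_eq_single a]
      · simp
      · intro c _ hc
        simp [Matrix.single_apply, hc]
      · simp
    · rw [if_neg hab]
      symm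
      refine Finset.sum_eq_zero fun c _ => ?_
      rw [Matrix.single_apply, if_neg]
      rintro ⟨rfl, rfl⟩
      exact hab rfl
  have m1 : (1 : Matrix n n ℤ) ∈ matGr deg 0 := (matDG deg).one_mem
  have ms : ∑ a : n, Matrix.single a a (1 : ℤ) ∈ matGr deg 0 := by rw [← one]; exact m1
  exact ((Fone m1).symm.trans (gen _ _ _ _ rfl one m1 ms)).trans (sum Finset.univ ms)

end

/-- The degrees `0, 0, 1`. -/
def deg3 : Fin 3 → ℤ := ![0, 0, 1]

lemma euler_deg3 : euler (DGMod.self (matDG deg3)).complex = 1 := by
  unfold euler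
  have hsub : (Function.support fun i : ℤ =>
      (i.negOnePow : ℤ) * (betti (DGMod.self (matDG deg3)).complex i : ℤ)) ⊆
      ↑({-1, 0, 1} : Finset ℤ) := by
    intro i hi
    rw [Function.mem_support, betti_matDG] at hi
    have hne : Nonempty (Ent deg3 i) := by
      apply Fintype.card_pos_iff.mp
      apply Nat.pos_of_ne_zero
      intro e0; apply hi; rw [e0]; simp
    obtain ⟨⟨p, hp⟩⟩ := hne
    have : ∀ p : Fin 3 × Fin 3, deg3 p.1 - deg3 p.2 ∈ ({-1, 0, 1} : Finset ℤ) := by decide
    have := this p
    rw [hp] at this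
    exact_mod_cast this
  rw [finsum_eq_sum_of_support_subset _ hsub]
  simp only [betti_matDG]
  have c1 : Fintype.card (Ent deg3 (-1)) = 2 := by decide
  have c2 : Fintype.card (Ent deg3 0) = 5 := by decide
  have c3 : Fintype.card (Ent deg3 1) = 2 := by decide
  rw [Finset.sum_insert (by decide), Finset.sum_insert (by decide), Finset.sum_singleton,
    c1, c2, c3]
  simp [Int.negOnePow]

lemma deg3_partner : ∀ a, ∃ b, Odd (deg3 a - deg3 b) := by decide

end Pool.Agent.H881R2
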